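import Mathlib

/-! Solvable groups have almost invariant probability measures. -/

set_option autoImplicit false
set_option linter.style.haveILetI false

open Finsupp
open scoped commutatorElement

namespace Pool.Agent.Helper29.TW

variable {X Y : Type}

/-- the sum of the absolute values -/
noncomputable def nu (f : X →₀ ℝ) : ℝ := f.sum fun _ a => |a|

theorem nu_eq {f : X →₀ ℝ} {S : Finset X} (h : f.support ⊆ S) : nu f = ∑ x ∈ S, |f x| :=
  Finsupp.sum_of_support_subset f h _ fun _ _ => abs_zero

theorem nu_nonneg (f : X →₀ ℝ) : 0 ≤ nu f := Finset.sum_nonneg fun _ _ => abs_nonneg _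

theorem nu_add_le (f g : X →₀ ℝ) : nu (f + g) ≤ nu f + nu g := by
  classical
  have h1 : (f + g).support ⊆ f.support ∪ g.support := Finsupp.support_add
  rw [nu_eq h1, nu_eq (Finset.subset_union_left (s₂ := g.support)),
    nu_eq (f := g) (Finset.subset_union_right (s₁ := f.support)), ← Finset.sum_add_distrib]
  exact Finset.sum_le_sum fun x _ => abs_add_le _ _

theorem nu_smul (c : ℝ) (f : X →₀ ℝ) : nu (c • f) = |c| * nu f := by
  have h1 : (c • f).support ⊆ f.support := Finsupp.support_smul
  rw [nu_eq h1, nu_eq (Finset.Subset.refl f.support), Finset.mul_sum]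
  exact Finset.sum_congr rfl fun x _ => by rw [Finsupp.smul_apply, smul_eq_mul, abs_mul]

theorem nu_zero : nu (0 : X →₀ ℝ) = 0 := Finsupp.sum_zero_index

theorem nu_sum_le {ι : Type} (S : Finset ι) (f : ι → (X →₀ ℝ)) :
    nu (∑ i ∈ S, f i) ≤ ∑ i ∈ S, nu (f i) := by
  classical
  induction S using Finset.induction_on with
  | empty => rw [Finset.sum_empty, Finset.sum_empty, nu_zero]
  | insert a S ha ih =>
    rw [Finset.sum_insert ha, Finset.sum_insert ha]
    exact (nu_add_le _ _).trans (add_le_add le_rfl ih)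

theorem nu_single (x : X) (a : ℝ) : nu (single x a) = |a| :=
  Finsupp.sum_single_index abs_zero

theorem nu_map_le (φ : X → Y) (f : X →₀ ℝ) : nu (mapDomain φ f) ≤ nu f := by
  rw [mapDomain, Finsupp.sum]
  refine (nu_sum_le _ _).trans ?_
  simp only [nu_single]
  exact le_rfl

/-- the total mass -/
noncomputable def ms : (X →₀ ℝ) →ₗ[ℝ] ℝ := Finsupp.linearCombination ℝ fun _ => (1 : ℝ)

theorem ms_single (x : X) (a : ℝ) : ms (single x a) = a := by
  rw [ms, Finsupp.linearCombination_single, smul_eq_mul, mul_one]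

theorem ms_map (φ : X → Y) (f : X →₀ ℝ) : ms (mapDomain φ f) = ms f := by
  rw [ms, Finsupp.linearCombination_mapDomain]
  rfl

theorem ms_eq (f : X →₀ ℝ) : ms f = f.sum fun _ a => a := by
  rw [ms, Finsupp.linearCombination_apply]
  exact Finset.sum_congr rfl fun x _ => by beta_reduce; rw [smul_eq_mul, mul_one]

theorem nu_of_nonneg {f : X →₀ ℝ} (h : ∀ x, 0 ≤ f x) : nu f = ms f := by
  rw [ms_eq, nu]
  exact Finset.sum_congr rfl fun x _ => abs_of_nonneg (h x)

theorem map_nonneg (φ : X → Y) {f : X →₀ ℝ} (h : ∀ x, 0 ≤ f x) (y : Y) : 0 ≤ mapDomain φ f y := by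
  classical
  rw [mapDomain, Finsupp.sum, Finsupp.finsetSum_apply]
  refine Finset.sum_nonneg fun x _ => ?_
  rw [single_apply]
  split_ifs
  · exact h x
  · exact le_rfl

/-- almost invariant probability measures -/
def Fol (G : Type) [Group G] : Prop := ∀ (K : Finset G) (ε : ℝ), 0 < ε → ∃ f : G →₀ ℝ,
  (∀ g, 0 ≤ f g) ∧ ms f = 1 ∧ ∀ k ∈ K, nu (mapDomain (fun h => k * h) f - f) ≤ ε

theorem Fol.of_comm {G : Type} [Group G] (hc : ∀ a b : G, a * b = b * a) : Fol G := by
  classical
  intro K ε hε
  induction K using Finset.induction_on with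
  | empty =>
    refine ⟨single 1 1, fun g => ?_, ms_single _ _, by simp⟩
    rw [single_apply]
    split_ifs
    · exact zero_le_one
    · exact le_rfl
  | insert k K _ ih =>
    obtain ⟨f, hf0, hf1, hf⟩ := ih
    obtain ⟨L, hL⟩ := exists_nat_gt (2 / ε)
    have hL0 : (0 : ℝ) < L := lt_trans (by positivity) hL
    set T : ℕ → (G →₀ ℝ) := fun a => mapDomain (fun h => k ^ a * h) f with hT
    have hTk : ∀ a, mapDomain (fun h => k * h) (T a) = T (a + 1) := by
      intro a
      rw [hT]
      show mapDomain _ (mapDomain _ f) = _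
      rw [← mapDomain_comp]
      congr 1
      funext h
      show k * (k ^ a * h) = k ^ (a + 1) * h
      rw [pow_succ', mul_assoc]
    have hlin : ∀ (φ : G → G), mapDomain φ ((1 / (L : ℝ)) • ∑ a ∈ Finset.range L, T a) =
        (1 / (L : ℝ)) • ∑ a ∈ Finset.range L, mapDomain φ (T a) := by
      intro φ
      rw [mapDomain_smul, mapDomain_finsetSum]
    refine ⟨(1 / (L : ℝ)) • ∑ a ∈ Finset.range L, T a, fun g => ?_, ?_, fun k' hk' => ?_⟩
    · rw [Finsupp.smul_apply, smul_eq_mul, Finsupp.finsetSum_apply]
      exact mul_nonneg (by positivity) (Finset.sum_nonneg fun a _ => map_nonneg _ hf0 g)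
    · rw [map_smul, map_sum, Finset.sum_congr rfl fun a _ => ms_map _ f, hf1, Finset.sum_const,
        Finset.card_range, smul_eq_mul, nsmul_eq_mul, mul_one]
      field_simp
    · rw [hlin, ← smul_sub, nu_smul, abs_of_pos (by positivity), ← Finset.sum_sub_distrib]
      rcases Finset.mem_insert.1 hk' with rfl | hk'
      · simp only [hTk]
        rw [Finset.sum_range_sub]
        have h1 : nu (T L - T 0) ≤ 2 := by
          have h2 : ∀ a, nu (T a) ≤ 1 := fun a => (nu_map_le _ f).trans (by
            rw [nu_of_nonneg hf0, hf1])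
          rw [sub_eq_add_neg]
          refine (nu_add_le _ _).trans ?_
          have h3 : nu (-T 0) = nu (T 0) := by
            rw [← neg_one_smul ℝ (T 0), nu_smul, abs_neg, abs_one, one_mul]
          rw [h3]
          linarith [h2 L, h2 0]
        calc 1 / (L : ℝ) * nu (T L - T 0) ≤ 1 / L * 2 :=
              mul_le_mul_of_nonneg_left h1 (by positivity)
          _ ≤ ε := by
              rw [div_lt_iff₀ hε] at hL
              rw [one_div, inv_mul_le_iff₀ hL0]
              linarith
      · have h1 : ∀ a, nu (mapDomain (fun h => k' * h) (T a) - T a) ≤ ε := by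
          intro a
          have e : mapDomain (fun h => k' * h) (T a) - T a =
              mapDomain (fun h => k ^ a * h) (mapDomain (fun h => k' * h) f - f) := by
            have e2 : mapDomain (fun h => k ^ a * h) (mapDomain (fun h => k' * h) f - f) =
                mapDomain (fun h => k ^ a * h) (mapDomain (fun h => k' * h) f) - T a :=
              map_sub (Finsupp.mapDomain.addMonoidHom (fun h => k ^ a * h)) _ _
            rw [e2, hT]
            show mapDomain _ (mapDomain _ f) - _ = _
            rw [← mapDomain_comp, ← mapDomain_comp]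
            congr 2
            funext h
            show k' * (k ^ a * h) = k ^ a * (k' * h)
            rw [← mul_assoc, hc k', mul_assoc]
          rw [e]
          exact (nu_map_le _ _).trans (hf k' hk')
        calc 1 / (L : ℝ) * nu (∑ a ∈ Finset.range L, (mapDomain (fun h => k' * h) (T a) - T a)) ≤
              1 / L * ∑ _a ∈ Finset.range L, ε :=
              mul_le_mul_of_nonneg_left ((nu_sum_le _ _).trans (Finset.sum_le_sum fun a _ => h1 a))
                (by positivity)
          _ = ε := by
              rw [Finset.sum_const, Finset.card_range, nsmul_eq_mul]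
              field_simp

theorem Fol.ext {G : Type} [Group G] (N : Subgroup G) [N.Normal] (h1 : Fol (G ⧸ N)) (h2 : Fol N) :
    Fol G := by
  classical
  intro K ε hε
  obtain ⟨f₁, hf₁0, hf₁1, hf₁⟩ := h1 (K.image fun k : G => (QuotientGroup.mk k : G ⧸ N)) (ε / 2) (by positivity)
  set s : G ⧸ N → G := fun c => c.out with hs
  have hsm : ∀ c, ((s c : G) : G ⧸ N) = c := fun c => QuotientGroup.out_eq' c
  have hn : ∀ (k : G) (c : G ⧸ N), (s ((k : G ⧸ N) * c))⁻¹ * k * s c ∈ N := by
    intro k c
    rw [mul_assoc, ← QuotientGroup.eq]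
    rw [hsm, QuotientGroup.mk_mul, hsm]
  obtain ⟨f₂, hf₂0, hf₂1, hf₂⟩ := h2
    ((K ×ˢ f₁.support).image fun p => (⟨_, hn p.1 p.2⟩ : N)) (ε / 2) (by positivity)
  set T : G ⧸ N → (G →₀ ℝ) := fun c => mapDomain (fun n : N => s c * n) f₂ with hT
  set Φ : (G ⧸ N →₀ ℝ) →ₗ[ℝ] (G →₀ ℝ) := Finsupp.linearCombination ℝ T with hΦ
  have hTnu : ∀ c, nu (T c) ≤ 1 := fun c => (nu_map_le _ f₂).trans (by
    rw [nu_of_nonneg hf₂0, hf₂1])
  have hΦnu : ∀ g, nu (Φ g) ≤ nu g := by
    intro g
    rw [hΦ, Finsupp.linearCombination_apply, Finsupp.sum]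
    refine (nu_sum_le _ _).trans (Finset.sum_le_sum fun c _ => ?_)
    rw [nu_smul]
    calc |g c| * nu (T c) ≤ |g c| * 1 := mul_le_mul_of_nonneg_left (hTnu c) (abs_nonneg _)
      _ = |g c| := mul_one _
  refine ⟨Φ f₁, fun g => ?_, ?_, fun k hk => ?_⟩
  · rw [hΦ, Finsupp.linearCombination_apply, Finsupp.sum, Finsupp.finsetSum_apply]
    refine Finset.sum_nonneg fun c _ => ?_
    rw [Finsupp.smul_apply, smul_eq_mul]
    exact mul_nonneg (hf₁0 c) (map_nonneg _ hf₂0 g)
  · rw [hΦ, Finsupp.linearCombination_apply, Finsupp.sum, map_sum]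
    simp only [map_smul]
    have : ∀ c, ms (T c) = 1 := fun c => (ms_map _ f₂).trans hf₂1
    simp only [this, smul_eq_mul, mul_one]
    rw [ms_eq] at hf₁1
    exact hf₁1
  · have e1 : mapDomain (fun h => k * h) (Φ f₁) - Φ f₁ =
        (∑ c ∈ f₁.support, f₁ c • (mapDomain (fun h => k * h) (T c) - T ((k : G ⧸ N) * c))) +
          Φ (mapDomain (fun c => (k : G ⧸ N) * c) f₁ - f₁) := by
      have e2 : mapDomain (fun h => k * h) (Φ f₁) =
          ∑ c ∈ f₁.support, f₁ c • mapDomain (fun h => k * h) (T c) := by
        rw [hΦ, Finsupp.linearCombination_apply, Finsupp.sum, mapDomain_finsetSum]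
        exact Finset.sum_congr rfl fun c _ => mapDomain_smul _ _
      have e3 : Φ (mapDomain (fun c => (k : G ⧸ N) * c) f₁) =
          ∑ c ∈ f₁.support, f₁ c • T ((k : G ⧸ N) * c) := by
        rw [hΦ, Finsupp.linearCombination_mapDomain, Finsupp.linearCombination_apply, Finsupp.sum]
        rfl
      rw [e2, map_sub, e3]
      simp only [smul_sub]
      rw [Finset.sum_sub_distrib]
      abel
    rw [e1]
    refine (nu_add_le _ _).trans ?_
    have h3 : nu (∑ c ∈ f₁.support, f₁ c •
        (mapDomain (fun h => k * h) (T c) - T ((k : G ⧸ N) * c))) ≤ ε / 2 := by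
      refine (nu_sum_le _ _).trans ?_
      calc _ ≤ ∑ c ∈ f₁.support, f₁ c * (ε / 2) := by
            refine Finset.sum_le_sum fun c hc => ?_
            rw [nu_smul, abs_of_nonneg (hf₁0 c)]
            refine mul_le_mul_of_nonneg_left ?_ (hf₁0 c)
            have e4 : mapDomain (fun h => k * h) (T c) - T ((k : G ⧸ N) * c) =
                mapDomain (fun n : N => s ((k : G ⧸ N) * c) * n)
                  (mapDomain (fun n => (⟨_, hn k c⟩ : N) * n) f₂ - f₂) := by
              have e5 : mapDomain (fun n : N => s ((k : G ⧸ N) * c) * (n : G))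
                  (mapDomain (fun n => (⟨_, hn k c⟩ : N) * n) f₂ - f₂) =
                  mapDomain (fun n : N => s ((k : G ⧸ N) * c) * (n : G))
                    (mapDomain (fun n => (⟨_, hn k c⟩ : N) * n) f₂) - T ((k : G ⧸ N) * c) :=
                map_sub (Finsupp.mapDomain.addMonoidHom
                  (fun n : N => s ((k : G ⧸ N) * c) * (n : G))) _ _
              rw [e5]
              congr 1
              rw [hT]
              show mapDomain _ (mapDomain _ f₂) = _
              rw [← mapDomain_comp, ← mapDomain_comp]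
              congr 1
              funext n
              show k * (s c * n) = s ((k : G ⧸ N) * c) *
                ((s ((k : G ⧸ N) * c))⁻¹ * k * s c * n)
              group
            rw [e4]
            refine (nu_map_le _ _).trans (hf₂ _ ?_)
            exact Finset.mem_image.2 ⟨(k, c), Finset.mem_product.2 ⟨hk, hc⟩, rfl⟩
        _ = ε / 2 := by
            rw [← Finset.sum_mul]
            rw [ms_eq] at hf₁1
            have : ∑ c ∈ f₁.support, f₁ c = 1 := hf₁1
            rw [this, one_mul]
    have h4 : nu (Φ (mapDomain (fun c => (k : G ⧸ N) * c) f₁ - f₁)) ≤ ε / 2 :=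
      (hΦnu _).trans (hf₁ _ (Finset.mem_image.2 ⟨k, hk, rfl⟩))
    linarith

theorem Fol.of_derived (n : ℕ) : ∀ (G : Type) [Group G], derivedSeries G n = ⊥ → Fol G := by
  induction n with
  | zero =>
    intro G _ h
    refine Fol.of_comm fun a b => ?_
    have h1 : ∀ a : G, a = 1 := fun a => by
      have : a ∈ (⊥ : Subgroup G) := by
        rw [← h]
        exact Subgroup.mem_top a
      exact this
    rw [h1 a, h1 b]
  | succ n ih =>
    intro G _ h
    set N := derivedSeries G n with hN
    haveI : N.Normal := by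
      rw [hN]
      infer_instance
    refine Fol.ext N (ih (G ⧸ N) ?_) (Fol.of_comm fun a b => ?_)
    · rw [← map_derivedSeries_eq (QuotientGroup.mk'_surjective N) n, Subgroup.map_eq_bot_iff,
        QuotientGroup.ker_mk']
    · refine Subtype.ext ?_
      have h1 : ⁅(a : G), (b : G)⁆ ∈ (⊥ : Subgroup G) := by
        rw [← h, derivedSeries_succ]
        exact Subgroup.commutator_mem_commutator a.2 b.2
      rw [Subgroup.mem_bot, commutatorElement_eq_one_iff_mul_comm] at h1
      exact h1

/-- **Solvable groups have almost invariant probability measures.** -/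
theorem Fol.of_solvable {G : Type} [Group G] (h : Group.IsSolvable G) : Fol G := by
  obtain ⟨n, hn⟩ := (Group.isSolvable_def G).mp h
  exact Fol.of_derived n G hn

end Pool.Agent.Helper29.TW
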