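import Pool.Agent.Helper29.TW.Est
import Pool.Agent.Helper29.VS.Ent

/-! Zero entropy and twisted group algebras. -/

set_option autoImplicit false
set_option linter.style.haveILetI false

open Filter Topology ComplexConjugate Finsupp

namespace Pool.Agent.Helper29.TW

open Pool.Agent.Helper29.VP (norm_un_le iter_u)
open Pool.Agent.Helper29.VS (Mk Indep dim_large XX sg sg_abs)

variable {A G : Type} [CStarAlgebra A] [Group G]

/-- the condition of complete positivity -/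
def CPos {k : ℕ} {B : Type} [CStarAlgebra B] (ψ : Mk k →ₗ[ℂ] B) : Prop :=
  ∀ (n : ℕ) (a : Fin n → Mk k) (b : Fin n → B), ∃ c : B,
    ∑ i, ∑ j, star (b i) * ψ (star (a i) * a j) * b j = star c * c

/-- subexponential rank of the approximations by completely positive contractions -/
def ZeroRankCP (α : A →⋆ₐ[ℂ] A) : Prop :=
  ∃ (H : Type) (_ : NormedAddCommGroup H) (_ : InnerProductSpace ℂ H) (_ : CompleteSpace H)
    (π : A →⋆ₐ[ℂ] (H →L[ℂ] H)), Function.Injective π ∧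
    ∀ (Ω : Finset A) (δ ε : ℝ), 0 < δ → 0 < ε → ∀ᶠ n : ℕ in atTop,
      ∃ k : ℕ, (k : ℝ) ≤ Real.exp (ε * n) ∧
        ∃ (φ : A →ₗ[ℂ] Mk k) (ψ : Mk k →ₗ[ℂ] (H →L[ℂ] H)), (∀ x, ‖φ x‖ ≤ ‖x‖) ∧
          (∀ y, ‖ψ y‖ ≤ ‖y‖) ∧ CPos ψ ∧
          ∀ i < n, ∀ a ∈ Ω, ‖ψ (φ ((α^[i]) a)) - π ((α^[i]) a)‖ < δ

/-- the coefficients: rows -/
theorem row_le {B N : Type} [CStarAlgebra B] [DecidableEq N] {g : B →L[ℂ] ℂ} (hg : ‖g‖ ≤ 1)
    (h1 : g 1 = 1) {U : N → B} (hUn : ∀ h, ‖U h‖ ≤ 1)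
    (hU : ∀ h' h, g (star (U h') * U h) = if h' = h then 1 else 0) {T : B} (hT : ‖T‖ ≤ 1)
    (h : N) (F : Finset N) : ∑ h' ∈ F, ‖g (star (U h') * T * U h)‖ ^ 2 ≤ 1 := by
  have h2 := bessel hg h1 hU F (T * U h)
  simp only [← mul_assoc] at h2
  refine h2.trans ?_
  have h3 : ‖T * U h‖ ≤ 1 := (norm_mul_le _ _).trans (by
    calc ‖T‖ * ‖U h‖ ≤ 1 * 1 := mul_le_mul hT (hUn h) (norm_nonneg _) zero_le_one
      _ = 1 := one_mul 1)
  calc ‖T * U h‖ ^ 2 ≤ 1 ^ 2 := pow_le_pow_left₀ (norm_nonneg _) h3 2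
    _ = 1 := one_pow 2

/-- the coefficients: columns -/
theorem col_le {B N : Type} [CStarAlgebra B] [DecidableEq N] {g : B →L[ℂ] ℂ} (hg : ‖g‖ ≤ 1)
    (h1 : g 1 = 1) {U : N → B} (hUn : ∀ h, ‖U h‖ ≤ 1)
    (hU : ∀ h' h, g (star (U h') * U h) = if h' = h then 1 else 0) {T : B} (hT : ‖T‖ ≤ 1)
    (h' : N) (F : Finset N) : ∑ h ∈ F, ‖g (star (U h') * T * U h)‖ ^ 2 ≤ 1 := by
  have h2 := row_le hg h1 hUn hU (T := star T) (by rw [norm_star]; exact hT) h' F
  refine le_trans (le_of_eq (Finset.sum_congr rfl fun h _ => ?_)) h2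
  have e : star (U h') * T * U h = star (star (U h) * star T * U h') := by
    rw [star_mul, star_mul, star_star, star_star, mul_assoc]
  rw [e, g_star hg h1, RCLike.norm_conj]

/-- **Zero entropy excludes independent orbits in twisted group algebras.** -/
theorem no_indep_cp {u : G → A} (hu : ∀ g, u g ∈ unitary A)
    (hmul : ∀ g h, ∃ z : ℂ, ‖z‖ = 1 ∧ u (g * h) = z • (u g * u h)) (τ : A →L[ℂ] ℂ) (hτ : ‖τ‖ ≤ 1)
    (hτ1 : τ 1 = 1) (hτu : ∀ g, g ≠ 1 → τ (u g) = 0) {σ : MulAut G} {α : A →⋆ₐ[ℂ] A}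
    (hα : ∀ g, ∃ c : ℂ, ‖c‖ = 1 ∧ α (u g) = c • u (σ g)) (hz : ZeroRankCP α) (N : Subgroup G)
    (hN : Fol N) (g₀ : G) : ¬ Indep σ N g₀ := by
  classical
  rintro ⟨hmem, q, hq0, hind⟩
  choose θ hθ hα' using hα
  choose cf hcf hcα using fun i => iter_u (u := u) (σ := σ) hθ hα' (g₀ : G) i
  obtain ⟨H, _, _, _, π, hπ, hrank⟩ := hz
  obtain ⟨n₀, hn₀⟩ := eventually_atTop.1 (hrank {u g₀} (1 / 32) (Real.log 2 / (1024 * q))
    (by norm_num) (by positivity))
  set p : ℕ := 2 ^ (n₀ + 1) with hp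
  have hp2 : 2 ≤ p := by
    rw [hp, pow_succ]
    have := Nat.one_le_two_pow (n := n₀)
    omega
  have hpn : n₀ ≤ p := by
    rw [hp]
    exact (Nat.lt_two_pow_self).le.trans (Nat.pow_le_pow_right (by norm_num) (Nat.le_succ _))
  set m : ℕ := 512 * p with hm
  obtain ⟨k, hk, φ, ψ, hφ, hψ, hcp, happ⟩ := hn₀ (q * m) (by
    calc n₀ ≤ p := hpn
      _ ≤ 512 * p := by omega
      _ = 1 * m := by rw [one_mul]
      _ ≤ q * m := Nat.mul_le_mul_right _ hq0)
  -- the state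
  obtain ⟨g, hg, hgπ⟩ := extend π hπ τ hτ
  have hg1 : g 1 = 1 := by
    have := hgπ 1
    rwa [map_one, hτ1] at this
  set U : N → (H →L[ℂ] H) := fun h => π (u (h : G)) with hUdef
  have hπn : ∀ a, ‖π a‖ = ‖a‖ := fun a => NonUnitalStarAlgHom.norm_map π hπ a
  have hUn : ∀ h, ‖U h‖ ≤ 1 := fun h => by
    show ‖π (u (h : G))‖ ≤ 1
    rw [hπn]
    exact norm_un_le (hu _)
  have hU : ∀ h' h, g (star (U h') * U h) = if h' = h then 1 else 0 := by
    intro h' h
    have e1 : star (U h') * U h = π (star (u (h' : G)) * u (h : G)) := by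
      rw [map_mul, map_star]
    rw [e1, hgπ]
    split_ifs with heq
    · rw [heq, (Unitary.mem_iff.1 (hu _)).1, hτ1]
    · obtain ⟨z, hz, hzu⟩ := hmul (h' : G) ((h' : G)⁻¹ * h)
      rw [mul_inv_cancel_left] at hzu
      rw [hzu, mul_smul_comm, ← mul_assoc, (Unitary.mem_iff.1 (hu _)).1, one_mul, map_smul, hτu,
        smul_zero]
      intro h0
      apply heq
      exact Subtype.ext (inv_mul_eq_one.1 h0)
  -- the images of the orbit
  set y : ℕ → Mk k := fun j => φ ((α^[q * j]) (u g₀)) with hy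
  set e : ℕ → N := fun j => ⟨(σ^[q * j]) g₀, hmem _⟩ with he
  have hyn : ∀ j, ‖y j‖ ≤ 1 := by
    intro j
    refine (hφ _).trans ?_
    rw [hcα, norm_smul, hcf, one_mul]
    exact norm_un_le (hu _)
  have hψn : ∀ j, ‖ψ (y j)‖ ≤ 1 := fun j => (hψ _).trans (hyn j)
  have hψ1 : ‖ψ 1‖ ≤ 1 := by
    refine (hψ 1).trans ?_
    exact ContinuousLinearMap.norm_id_le
  have happ' : ∀ j < m, ‖ψ (y j) - π ((α^[q * j]) (u g₀))‖ < 1 / 32 := fun j hj =>
    happ (q * j) (Nat.mul_lt_mul_of_pos_left hj hq0) (u g₀) (Finset.mem_singleton_self _)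
  have hdiag : ∀ j < m, ∀ h : N, 15 / 16 ≤ ‖g (star (U (e j * h)) * ψ (y j) * U h)‖ ^ 2 := by
    intro j hj h
    set V := π ((α^[q * j]) (u g₀)) with hV
    obtain ⟨z, hz, hzu⟩ := hmul (e j : G) (h : G)
    have hz0 : z ≠ 0 := by
      intro h0
      rw [h0, norm_zero] at hz
      exact zero_ne_one hz
    have e1 : V * U h = (cf (q * j) * z⁻¹) • U (e j * h) := by
      show π ((α^[q * j]) (u g₀)) * π (u (h : G)) = _ • π (u ((e j * h : N) : G))
      rw [hcα, ← map_mul, ← map_smul]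
      congr 1
      have e2 : ((e j * h : N) : G) = (e j : G) * h := rfl
      rw [e2, hzu, smul_smul, mul_assoc, inv_mul_cancel₀ hz0, mul_one, smul_mul_assoc]
    have e2 : ‖g (star (U (e j * h)) * V * U h)‖ = 1 := by
      rw [mul_assoc, e1, mul_smul_comm, map_smul, hU, if_pos rfl, smul_eq_mul, mul_one, norm_mul,
        hcf, norm_inv, hz, inv_one, one_mul]
    have e3 : ‖g (star (U (e j * h)) * (ψ (y j) - V) * U h)‖ ≤ 1 / 32 := by
      refine (g.le_opNorm _).trans ?_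
      have h3 : ‖star (U (e j * h)) * (ψ (y j) - V) * U h‖ ≤ 1 / 32 := by
        calc ‖star (U (e j * h)) * (ψ (y j) - V) * U h‖ ≤
              ‖star (U (e j * h))‖ * ‖ψ (y j) - V‖ * ‖U h‖ :=
              (norm_mul_le _ _).trans (mul_le_mul_of_nonneg_right (norm_mul_le _ _) (norm_nonneg _))
          _ ≤ 1 * (1 / 32) * 1 := by
              refine mul_le_mul (mul_le_mul ?_ (happ' j hj).le (norm_nonneg _) zero_le_one) (hUn h)
                (norm_nonneg _) (by norm_num)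
              rw [norm_star]
              exact hUn _
          _ = 1 / 32 := by norm_num
      calc ‖g‖ * _ ≤ 1 * (1 / 32) := mul_le_mul hg h3 (norm_nonneg _) zero_le_one
        _ = 1 / 32 := one_mul _
    have e4 : star (U (e j * h)) * ψ (y j) * U h = star (U (e j * h)) * V * U h +
        star (U (e j * h)) * (ψ (y j) - V) * U h := by
      rw [mul_sub, sub_mul]
      abel
    have e5 : 31 / 32 ≤ ‖g (star (U (e j * h)) * ψ (y j) * U h)‖ := by
      rw [e4, map_add]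
      have := norm_sub_le_norm_add (g (star (U (e j * h)) * V * U h))
        (g (star (U (e j * h)) * (ψ (y j) - V) * U h))
      rw [e2] at this
      linarith
    nlinarith
  -- the almost invariant measure
  obtain ⟨f, hf0, hf1, hf⟩ := hN ((Finset.range m).image fun j => (e j)⁻¹) (1 / 8) (by norm_num)
  set F := f.support with hF
  obtain ⟨D, _, r, hr⟩ := gram hg hg1 ψ hcp U F
  -- the lower bound
  have hX : ∀ ε : Fin m → Bool, (m : ℝ) / 4 ≤ ‖XX (fun j : Fin m => KO (y j)) ε‖ := by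
    intro ε
    set w : ℕ → ℂ := fun j => if h : j < m then (sg (ε ⟨j, h⟩) : ℂ) else 1 with hwdef
    have hw : ∀ j, ‖w j‖ = 1 := by
      intro j
      show ‖(if h : j < m then (sg (ε ⟨j, h⟩) : ℂ) else 1)‖ = 1
      split_ifs with h
      · rw [Complex.norm_real, Real.norm_eq_abs, sg_abs]
      · exact norm_one
    have hwr : ∀ j, conj (w j) = w j := by
      intro j
      show conj (if h : j < m then (sg (ε ⟨j, h⟩) : ℂ) else 1) =
        if h : j < m then (sg (ε ⟨j, h⟩) : ℂ) else 1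
      split_ifs with h
      · exact Complex.conj_ofReal _
      · exact map_one _
    obtain ⟨χ, hχm, hχn, hχ⟩ := hind m w hw
    set c : N → ℂ := fun h => √(f h) * χ h with hc
    have hcn : ∀ h, ‖c h‖ = √(f h) := by
      intro h
      show ‖(√(f h) : ℂ) * χ h‖ = _
      rw [norm_mul, hχn, Complex.norm_real, Real.norm_eq_abs, abs_of_nonneg (Real.sqrt_nonneg _),
        mul_one]
    have hfo : ∀ x : Mk k, fo F c r x = ∑ h ∈ F, ∑ h' ∈ F, c h * conj (c h') *
        ((‖g (star (U h') * ψ x * U h)‖ ^ 2 : ℝ) : ℂ) := by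
      intro x
      rw [fo]
      refine Finset.sum_congr rfl fun h hh => Finset.sum_congr rfl fun h' hh' => ?_
      rw [← hr h hh h' hh' x, Complex.mul_conj']
      push_cast
      rfl
    have h1 : ‖fo F c r (1 : Mk k)‖ ≤ 1 := by
      rw [hfo]
      calc _ ≤ ∑ h ∈ F, ∑ h' ∈ F, √(f h) * √(f h') * ‖g (star (U h') * ψ 1 * U h)‖ ^ 2 := by
            refine (norm_sum_le _ _).trans (Finset.sum_le_sum fun h _ => ?_)
            refine (norm_sum_le _ _).trans (Finset.sum_le_sum fun h' _ => le_of_eq ?_)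
            rw [norm_mul, norm_mul, RCLike.norm_conj, hcn, hcn, Complex.norm_real, Real.norm_eq_abs,
              abs_of_nonneg (sq_nonneg _)]
        _ ≤ 1 * ∑ h ∈ F, f h :=
            form_le F hf0 (fun h' h => ‖g (star (U h') * ψ 1 * U h)‖ ^ 2)
              (fun _ _ => sq_nonneg _) (fun _ => F) (fun _ => F) (fun h h' hh hh' => ⟨hh', hh⟩)
              (fun h _ => row_le hg hg1 hUn hU hψ1 h F) (fun h' _ => col_le hg hg1 hUn hU hψ1 h' F)
        _ = 1 := by rw [sum_f_eq hf1, one_mul]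
    have h2 : ∀ j < m, ‖fo F c r (y j) - conj (χ (e j))‖ ≤ 1 / 4 := by
      intro j hj
      rw [hfo]
      exact est f hf0 hf1 (e j) (hf _ (Finset.mem_image_of_mem _ (Finset.mem_range.2 hj))) χ hχm hχn
        (fun h' h => ‖g (star (U h') * ψ (y j) * U h)‖ ^ 2) (fun _ _ => sq_nonneg _)
        (fun h F' => row_le hg hg1 hUn hU (hψn j) h F')
        (fun h' F' => col_le hg hg1 hUn hU (hψn j) h' F') (hdiag j hj)
    have h3 : (m : ℝ) / 2 ≤ ‖∑ j : Fin m, w j * conj (χ (e j))‖ := by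
      refine hχ.trans (le_of_eq ?_)
      rw [← RCLike.norm_conj, map_sum]
      congr 1
      refine Finset.sum_congr rfl fun j _ => ?_
      rw [map_mul, hwr]
    have h4 : ‖∑ j : Fin m, w j * fo F c r (y j) - ∑ j : Fin m, w j * conj (χ (e j))‖ ≤
        (m : ℝ) / 4 := by
      rw [← Finset.sum_sub_distrib]
      refine (norm_sum_le _ _).trans ?_
      calc _ ≤ ∑ _j : Fin m, (1 / 4 : ℝ) := by
            refine Finset.sum_le_sum fun j _ => ?_
            rw [← mul_sub, norm_mul, hw, one_mul]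
            exact h2 j j.2
        _ = (m : ℝ) / 4 := by
            rw [Finset.sum_const, Finset.card_univ, Fintype.card_fin, nsmul_eq_mul]
            ring
    have h5 : ‖∑ j : Fin m, w j * conj (χ (e j))‖ ≤ ‖∑ j : Fin m, w j * fo F c r (y j)‖ +
        ‖∑ j : Fin m, w j * fo F c r (y j) - ∑ j : Fin m, w j * conj (χ (e j))‖ := by
      have e1 : ∑ j : Fin m, w j * conj (χ (e j)) = ∑ j : Fin m, w j * fo F c r (y j) -
          (∑ j : Fin m, w j * fo F c r (y j) - ∑ j : Fin m, w j * conj (χ (e j))) := by ring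
      conv_lhs => rw [e1]
      exact norm_sub_le _ _
    have h6 := low F c r (fun j : Fin m => y j) (fun j : Fin m => w j)
    have h7 : ∑ j : Fin m, w j • KO (y j) = XX (fun j : Fin m => KO (y j)) ε := by
      rw [XX]
      refine Finset.sum_congr rfl fun j _ => ?_
      show (if h : (j : ℕ) < m then (sg (ε ⟨j, h⟩) : ℂ) else 1) • KO (y j) = _
      rw [dif_pos j.2]
    rw [h7] at h6
    have h8 : ‖∑ j : Fin m, w j * fo F c r (y j)‖ ≤ ‖XX (fun j : Fin m => KO (y j)) ε‖ := by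
      refine h6.trans ?_
      calc _ ≤ ‖XX (fun j : Fin m => KO (y j)) ε‖ * 1 :=
            mul_le_mul_of_nonneg_left h1 (norm_nonneg _)
        _ = _ := mul_one _
    linarith
  have h4p : (4 : ℝ) ^ p ≤ 2 * ((k * k : ℕ) : ℝ) :=
    dim_large (r := n₀) hp hm (a := fun j : Fin m => KO (y j)) (fun j => KO_norm (hyn j)) hX
  -- the contradiction
  have hq' : (0 : ℝ) < q := by exact_mod_cast hq0
  have hk2 : ((k * k : ℕ) : ℝ) ≤ 2 ^ p := by
    have e1 : Real.log 2 / (1024 * q) * ((q * m : ℕ) : ℝ) = Real.log 2 * p / 2 := by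
      rw [hm]
      push_cast
      field_simp
      norm_num
    rw [e1] at hk
    have e2 : Real.exp (Real.log 2 * p / 2) * Real.exp (Real.log 2 * p / 2) = 2 ^ p := by
      rw [← Real.exp_add, add_halves, mul_comm, Real.exp_nat_mul, Real.exp_log (by norm_num)]
    rw [Nat.cast_mul, ← e2]
    exact mul_le_mul hk hk (by positivity) (by positivity)
  have h1 : (4 : ℝ) ^ p ≤ 2 ^ (p + 1) := by
    rw [pow_succ]
    linarith
  have h2 : (2 : ℝ) ^ (2 * p) ≤ 2 ^ (p + 1) := by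
    rw [pow_mul]
    norm_num
    exact h1
  have h3 := (pow_le_pow_iff_right₀ (by norm_num : (1 : ℝ) < 2)).1 h2
  omega

end Pool.Agent.Helper29.TW
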