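import Mathlib

/-! Functionals of norm one with `g 1 = 1`. -/

set_option autoImplicit false
set_option linter.style.haveILetI false

open ComplexConjugate

namespace Pool.Agent.Helper29.TW

variable {B : Type} [CStarAlgebra B] {g : B →L[ℂ] ℂ}

theorem g_im_zero (hg : ‖g‖ ≤ 1) (h1 : g 1 = 1) {b : B} (hb : IsSelfAdjoint b) : (g b).im = 0 := by
  by_contra hne
  have key : ∀ t : ℝ, (g b).re ^ 2 + ((g b).im + t) ^ 2 ≤ ‖b‖ ^ 2 + t ^ 2 := by
    intro t
    set x : B := b + (t * Complex.I : ℂ) • 1 with hx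
    have e1 : g x = g b + t * Complex.I := by
      rw [hx, map_add, map_smul, h1, smul_eq_mul, mul_one]
    have e2 : ‖g x‖ ^ 2 = (g b).re ^ 2 + ((g b).im + t) ^ 2 := by
      rw [e1, Complex.sq_norm, Complex.normSq_apply]
      simp
      ring
    have e3 : star x * x = star b * b + ((t ^ 2 : ℝ) : ℂ) • (1 : B) := by
      have hsc : star (t * Complex.I : ℂ) = -(t * Complex.I) := by simp
      have hcc : (((t ^ 2 : ℝ) : ℂ)) = -((t * Complex.I) * (t * Complex.I)) := by
        push_cast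
        ring_nf
        rw [Complex.I_sq]
        ring
      rw [hx, star_add, star_smul, star_one, hb.star_eq, hsc, hcc]
      simp only [mul_add, add_mul, smul_mul_assoc, mul_smul_comm, one_mul, mul_one]
      module
    have e4 : ‖x‖ ^ 2 ≤ ‖b‖ ^ 2 + t ^ 2 := by
      rw [sq, ← CStarRing.norm_star_mul_self, e3]
      refine (norm_add_le _ _).trans ?_
      rw [CStarRing.norm_star_mul_self, ← sq, norm_smul, Complex.norm_real, Real.norm_eq_abs,
        abs_of_nonneg (sq_nonneg t)]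
      have h2 : ‖(1 : B)‖ ≤ 1 := by
        by_cases hz : ‖(1 : B)‖ = 0
        · rw [hz]
          exact zero_le_one
        · have h3 : ‖(1 : B)‖ = ‖(1 : B)‖ * ‖(1 : B)‖ := by
            rw [← CStarRing.norm_star_mul_self, star_one, one_mul]
          have h4 : ‖(1 : B)‖ = 1 := by
            have := mul_left_cancel₀ hz (h3.symm.trans (mul_one _).symm)
            exact this
          rw [h4]
      nlinarith [sq_nonneg t]
    rw [← e2]
    refine le_trans ?_ e4
    refine pow_le_pow_left₀ (norm_nonneg _) ((g.le_opNorm x).trans ?_) 2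
    calc ‖g‖ * ‖x‖ ≤ 1 * ‖x‖ := mul_le_mul_of_nonneg_right hg (norm_nonneg _)
      _ = ‖x‖ := one_mul _
  have h2 := key ((‖b‖ ^ 2 + 1) / (2 * (g b).im))
  have h3 : 2 * (g b).im * ((‖b‖ ^ 2 + 1) / (2 * (g b).im)) = ‖b‖ ^ 2 + 1 := by
    field_simp
  nlinarith [sq_nonneg (g b).re, sq_nonneg (g b).im]

theorem g_star (hg : ‖g‖ ≤ 1) (h1 : g 1 = 1) (b : B) : g (star b) = conj (g b) := by
  have h2 := g_im_zero hg h1 (IsSelfAdjoint.add_star_self b)
  have h3 : IsSelfAdjoint (Complex.I • (b - star b)) := by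
    rw [IsSelfAdjoint, star_smul, star_sub, star_star, Complex.star_def, Complex.conj_I, neg_smul,
      ← smul_neg, neg_sub]
  have h4 := g_im_zero hg h1 h3
  rw [map_add, Complex.add_im] at h2
  rw [map_smul, map_sub, smul_eq_mul, Complex.I_mul_im, Complex.sub_re] at h4
  refine Complex.ext ?_ ?_
  · rw [Complex.conj_re]
    linarith
  · rw [Complex.conj_im]
    linarith

theorem g_pos (hg : ‖g‖ ≤ 1) (h1 : g 1 = 1) (a : B) : 0 ≤ (g (star a * a)).re := by
  letI := CStarAlgebra.spectralOrder B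
  letI := CStarAlgebra.spectralOrderedRing B
  set b := star a * a with hb
  have hb0 : 0 ≤ b := star_mul_self_nonneg a
  have hb1 : b ≤ algebraMap ℝ B ‖b‖ := IsSelfAdjoint.le_algebraMap_norm_self (.of_nonneg hb0)
  have h2 : ‖algebraMap ℝ B ‖b‖ - b‖ ≤ ‖b‖ := by
    refine (CStarAlgebra.norm_le_norm_of_nonneg_of_le (sub_nonneg.2 hb1)
      (sub_le_self _ hb0)).trans ?_
    rw [norm_algebraMap]
    have h2 : ‖(1 : B)‖ ≤ 1 := by
      by_cases hz : ‖(1 : B)‖ = 0
      · rw [hz]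
        exact zero_le_one
      · have h3 : ‖(1 : B)‖ = ‖(1 : B)‖ * ‖(1 : B)‖ := by
          rw [← CStarRing.norm_star_mul_self, star_one, one_mul]
        have h4 : ‖(1 : B)‖ = 1 := mul_left_cancel₀ hz (h3.symm.trans (mul_one _).symm)
        rw [h4]
    rw [Real.norm_eq_abs, abs_of_nonneg (norm_nonneg _)]
    nlinarith [norm_nonneg b]
  have h3 : g (algebraMap ℝ B ‖b‖ - b) = (‖b‖ : ℂ) - g b := by
    rw [map_sub]
    congr 1
    rw [Algebra.algebraMap_eq_smul_one]
    have : (‖b‖ : ℝ) • (1 : B) = ((‖b‖ : ℝ) : ℂ) • (1 : B) := (Complex.coe_smul _ _).symm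
    rw [this, map_smul, h1, smul_eq_mul, mul_one]
  have h4 : ‖(‖b‖ : ℂ) - g b‖ ≤ ‖b‖ := by
    rw [← h3]
    refine (g.le_opNorm _).trans ?_
    calc ‖g‖ * ‖algebraMap ℝ B ‖b‖ - b‖ ≤ 1 * ‖b‖ :=
          mul_le_mul hg h2 (norm_nonneg _) zero_le_one
      _ = ‖b‖ := one_mul _
  have h5 := (Complex.re_le_norm _).trans h4
  rw [Complex.sub_re, Complex.ofReal_re] at h5
  linarith

/-- **Bessel's inequality.** -/
theorem bessel {N : Type} (hg : ‖g‖ ≤ 1) (h1 : g 1 = 1) {U : N → B} [DecidableEq N]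
    (hU : ∀ h' h, g (star (U h') * U h) = if h' = h then 1 else 0) (F : Finset N) (a : B) :
    ∑ h ∈ F, ‖g (star (U h) * a)‖ ^ 2 ≤ ‖a‖ ^ 2 := by
  set l : N → ℂ := fun h => g (star (U h) * a) with hl
  set S : B := ∑ h ∈ F, l h • U h with hS
  have hpos := g_pos hg h1 (a - S)
  have e1 : star (a - S) * (a - S) = star a * a - star a * S - star S * a + star S * S := by
    rw [star_sub]
    noncomm_ring
  have e2 : g (star S * a) = ((∑ h ∈ F, ‖l h‖ ^ 2 : ℝ) : ℂ) := by
    rw [hS, star_sum, Finset.sum_mul, map_sum]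
    push_cast
    refine Finset.sum_congr rfl fun h _ => ?_
    rw [star_smul, smul_mul_assoc, map_smul, smul_eq_mul, Complex.star_def]
    show conj (l h) * l h = _
    rw [Complex.conj_mul']
  have e3 : g (star a * S) = ((∑ h ∈ F, ‖l h‖ ^ 2 : ℝ) : ℂ) := by
    have : star a * S = star (star S * a) := by rw [star_mul, star_star]
    rw [this, g_star hg h1, e2, Complex.conj_ofReal]
  have e4 : g (star S * S) = ((∑ h ∈ F, ‖l h‖ ^ 2 : ℝ) : ℂ) := by
    have h3 : g (star S * S) = ∑ h ∈ F, ∑ h' ∈ F, conj (l h) * (l h' * g (star (U h) * U h')) := by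
      rw [hS, star_sum, Finset.sum_mul, map_sum]
      refine Finset.sum_congr rfl fun h _ => ?_
      rw [Finset.mul_sum, map_sum]
      refine Finset.sum_congr rfl fun h' _ => ?_
      rw [star_smul, smul_mul_assoc, mul_smul_comm, map_smul, map_smul, smul_eq_mul, smul_eq_mul,
        Complex.star_def]
    rw [h3]
    push_cast
    refine Finset.sum_congr rfl fun h hh => ?_
    rw [Finset.sum_eq_single h]
    · rw [hU, if_pos rfl, mul_one, Complex.conj_mul']
    · intro h' _ hne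
      rw [hU, if_neg (Ne.symm hne), mul_zero, mul_zero]
    · intro hh'
      exact absurd hh hh'
  rw [e1, map_add, map_sub, map_sub, e2, e3, e4] at hpos
  simp only [Complex.add_re, Complex.sub_re, Complex.ofReal_re] at hpos
  have h5 : (g (star a * a)).re ≤ ‖a‖ ^ 2 := by
    refine (Complex.re_le_norm _).trans ((g.le_opNorm _).trans ?_)
    rw [CStarRing.norm_star_mul_self, ← sq]
    calc ‖g‖ * ‖a‖ ^ 2 ≤ 1 * ‖a‖ ^ 2 := mul_le_mul_of_nonneg_right hg (by positivity)
      _ = _ := one_mul _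
  show ∑ h ∈ F, ‖l h‖ ^ 2 ≤ ‖a‖ ^ 2
  linarith

/-- extension of functionals from a faithfully represented algebra -/
theorem extend {A : Type} [CStarAlgebra A] (π : A →⋆ₐ[ℂ] B) (hπ : Function.Injective π)
    (τ : A →L[ℂ] ℂ) (hτ : ‖τ‖ ≤ 1) : ∃ g : B →L[ℂ] ℂ, ‖g‖ ≤ 1 ∧ ∀ a, g (π a) = τ a := by
  have hiso : ∀ a, ‖π a‖ = ‖a‖ := fun a => NonUnitalStarAlgHom.norm_map π hπ a
  let L : A →ₗ[ℂ] B := { toFun := π, map_add' := map_add π, map_smul' := fun c a => map_smul π c a }
  have hL : Function.Injective L := hπ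
  let e := LinearEquiv.ofInjective L hL
  have hen : ∀ y : LinearMap.range L, ‖e.symm y‖ = ‖y‖ := by
    intro y
    have h1 : L (e.symm y) = (y : B) := by
      have := congrArg Subtype.val (e.apply_symm_apply y)
      rwa [LinearEquiv.ofInjective_apply] at this
    calc ‖e.symm y‖ = ‖L (e.symm y)‖ := (hiso _).symm
      _ = ‖y‖ := by rw [h1]; rfl
  let f : LinearMap.range L →L[ℂ] ℂ :=
    LinearMap.mkContinuous (τ.toLinearMap ∘ₗ e.symm.toLinearMap) 1 (by
      intro y
      show ‖τ (e.symm y)‖ ≤ 1 * ‖y‖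
      rw [one_mul, ← hen y]
      exact (τ.le_opNorm _).trans (by
        calc ‖τ‖ * ‖e.symm y‖ ≤ 1 * ‖e.symm y‖ := mul_le_mul_of_nonneg_right hτ (norm_nonneg _)
          _ = _ := one_mul _))
  have hf : ‖f‖ ≤ 1 := LinearMap.mkContinuous_norm_le _ zero_le_one _
  obtain ⟨g, hg1, hg2⟩ := exists_extension_norm_eq (LinearMap.range L) f
  refine ⟨g, by rw [hg2]; exact hf, fun a => ?_⟩
  have h1 := hg1 ⟨L a, LinearMap.mem_range_self L a⟩
  have h2 : e.symm ⟨L a, LinearMap.mem_range_self L a⟩ = a := by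
    rw [LinearEquiv.symm_apply_eq]
    rfl
  calc g (π a) = f ⟨L a, LinearMap.mem_range_self L a⟩ := h1
    _ = τ (e.symm ⟨L a, LinearMap.mem_range_self L a⟩) := rfl
    _ = τ a := by rw [h2]

end Pool.Agent.Helper29.TW
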