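import Pool.Agent.Helper29.TW.Kr
import Pool.Agent.Helper29.TW.St

/-! Completely positive maps on matrix algebras: Gram vectors. -/

set_option autoImplicit false
set_option linter.style.haveILetI false

open ComplexConjugate
open scoped MatrixOrder ComplexOrder

namespace Pool.Agent.Helper29.TW

open Pool.Agent.Helper29.VS (Mk bv sum_bv)

variable {k : ℕ}

/-- the matrix units -/
noncomputable def Eu (p q : Fin k) : Mk k :=
  (EuclideanSpace.proj q : EuclideanSpace ℂ (Fin k) →L[ℂ] ℂ).smulRight (bv k p)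

theorem Eu_apply (p q : Fin k) (v : EuclideanSpace ℂ (Fin k)) : Eu p q v = v q • bv k p := rfl

theorem bv_self (p : Fin k) : (bv k p) p = 1 := by
  simp [bv]

theorem Eu_star (p q : Fin k) : star (Eu p q) = Eu q p := by
  rw [ContinuousLinearMap.star_eq_adjoint, eq_comm, ContinuousLinearMap.eq_adjoint_iff]
  intro v w
  rw [Eu_apply, Eu_apply, inner_smul_left, inner_smul_right, bv, bv, EuclideanSpace.inner_single_left,
    EuclideanSpace.inner_single_right, map_one, one_mul, one_mul]
  ring

theorem Eu_mul (p₀ p q : Fin k) : star (Eu p₀ p) * Eu p₀ q = Eu p q := by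
  rw [Eu_star]
  ext1 v
  show Eu p p₀ (Eu p₀ q v) = _
  rw [Eu_apply, Eu_apply, Eu_apply, PiLp.smul_apply, bv_self, smul_eq_mul, mul_one]

theorem Eu_sum (x : Mk k) : x = ∑ p, ∑ q, ent x p q • Eu p q := by
  ext v p
  rw [apply_ent]
  simp only [_root_.sum_apply, WithLp.ofLp_sum, Finset.sum_apply]
  symm
  refine (Finset.sum_eq_single p ?_ ?_).trans ?_
  · intro p' _ hp'
    refine Finset.sum_eq_zero fun q _ => ?_
    show (ent x p' q • (v q • bv k p')) p = 0
    rw [PiLp.smul_apply, PiLp.smul_apply]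
    have : (bv k p') p = 0 := by
      rw [bv]
      simp [Ne.symm hp']
    rw [this, smul_zero, smul_zero]
  · intro h
    exact absurd (Finset.mem_univ p) h
  · refine Finset.sum_congr rfl fun q _ => ?_
    show (ent x p q • (v q • bv k p)) p = _
    rw [PiLp.smul_apply, PiLp.smul_apply, bv_self, smul_eq_mul, smul_eq_mul, mul_one]

variable {B : Type} [CStarAlgebra B] {g : B →L[ℂ] ℂ} {N : Type}

theorem gram (hg : ‖g‖ ≤ 1) (h1 : g 1 = 1) (ψ : Mk k →ₗ[ℂ] B)
    (hcp : ∀ (n : ℕ) (a : Fin n → Mk k) (b : Fin n → B), ∃ c : B,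
      ∑ i, ∑ j, star (b i) * ψ (star (a i) * a j) * b j = star c * c) (U : N → B) (F : Finset N) :
    ∃ (D : Type) (_ : Fintype D) (r : N → D → EuclideanSpace ℂ (Fin k)),
      ∀ h ∈ F, ∀ h' ∈ F, ∀ x : Mk k, g (star (U h') * ψ x * U h) = co r h' h x := by
  classical
  rcases Nat.eq_zero_or_pos k with rfl | hk
  · refine ⟨Empty, inferInstance, fun _ _ => 0, fun h _ h' _ x => ?_⟩
    have hx : x = 0 := by
      ext v i
      exact i.elim0
    rw [hx, map_zero, mul_zero, zero_mul, map_zero, co]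
    exact (Finset.sum_eq_zero fun s _ => s.elim).symm
  · set p₀ : Fin k := ⟨0, hk⟩ with hp₀
    set Bm : Matrix (F × Fin k) (F × Fin k) ℂ :=
      Matrix.of fun a b => g (star (U a.1) * ψ (Eu a.2 b.2) * U b.1) with hBm
    have hquad : ∀ v : F × Fin k → ℂ, ∃ c : B,
        ∑ a, ∑ b, conj (v a) * (Bm a b * v b) = g (star c * c) := by
      intro v
      set bb : Fin k → B := fun q => ∑ h : F, v (h, q) • U h with hbb
      obtain ⟨c, hc⟩ := hcp k (fun p => Eu p₀ p) bb
      refine ⟨c, ?_⟩
      rw [← hc]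
      simp only [Eu_mul, map_sum]
      have e1 : ∀ p q, g (star (bb p) * ψ (Eu p q) * bb q) =
          ∑ h' : F, ∑ h : F, conj (v (h', p)) * (Bm (h', p) (h, q) * v (h, q)) := by
        intro p q
        rw [hbb]
        show g (star (∑ h : F, v (h, p) • U h) * ψ (Eu p q) * ∑ h : F, v (h, q) • U h) = _
        rw [star_sum, Finset.sum_mul, Finset.sum_mul, map_sum]
        refine Finset.sum_congr rfl fun h' _ => ?_
        rw [Finset.mul_sum, map_sum]
        refine Finset.sum_congr rfl fun h _ => ?_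
        rw [star_smul, smul_mul_assoc, smul_mul_assoc, mul_smul_comm, map_smul, map_smul,
          smul_eq_mul, smul_eq_mul, Complex.star_def, hBm, Matrix.of_apply, mul_comm (v (h, q))]
      simp only [e1]
      rw [Fintype.sum_prod_type]
      simp only [Fintype.sum_prod_type]
      have e2 : ∀ (f : F → Fin k → F → Fin k → ℂ), ∑ h', ∑ p, ∑ h, ∑ q, f h' p h q =
          ∑ p, ∑ q, ∑ h', ∑ h, f h' p h q := by
        intro f
        rw [Finset.sum_comm]
        refine Finset.sum_congr rfl fun p _ => ?_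
        have e3 : ∀ h', ∑ h, ∑ q, f h' p h q = ∑ q, ∑ h, f h' p h q := fun h' => Finset.sum_comm
        simp only [e3]
        exact Finset.sum_comm
      exact e2 fun h' p h q => conj (v (h', p)) * (Bm (h', p) (h, q) * v (h, q))
    have hform : ∀ v : F × Fin k → ℂ, star v ⬝ᵥ (Bm.mulVec v) =
        ∑ a, ∑ b, conj (v a) * (Bm a b * v b) := by
      intro v
      rw [dotProduct]
      refine Finset.sum_congr rfl fun a _ => ?_
      rw [Matrix.mulVec, dotProduct, Finset.mul_sum]
      rfl
    have him : ∀ c : B, (g (star c * c)).im = 0 := fun c =>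
      g_im_zero hg h1 (IsSelfAdjoint.star_mul_self c)
    have hpos : ∀ v : F × Fin k → ℂ, 0 ≤ star v ⬝ᵥ (Bm.mulVec v) := by
      intro v
      obtain ⟨c, hc⟩ := hquad v
      rw [hform, hc, Complex.nonneg_iff]
      exact ⟨g_pos hg h1 c, (him c).symm⟩
    have hherm : Bm.IsHermitian := by
      rw [Matrix.isHermitian_iff_isSymmetric, LinearMap.isSymmetric_iff_inner_map_self_real]
      intro v
      have e1 : inner ℂ (Matrix.toEuclideanLin Bm v) v =
          conj (star (v.ofLp) ⬝ᵥ (Bm.mulVec v.ofLp)) := by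
        rw [EuclideanSpace.inner_eq_star_dotProduct, Matrix.ofLp_toEuclideanLin_apply]
        simp only [dotProduct, map_sum, map_mul, Pi.star_apply, Complex.star_def, Complex.conj_conj]
      obtain ⟨c, hc⟩ := hquad v.ofLp
      rw [e1, hform, hc, Complex.conj_conj]
      exact (Complex.conj_eq_iff_im.2 (him c)).symm
    have hPSD : Bm.PosSemidef := Matrix.PosSemidef.of_dotProduct_mulVec_nonneg hherm hpos
    obtain ⟨C, hC⟩ := CStarAlgebra.nonneg_iff_eq_star_mul_self.mp hPSD.nonneg
    refine ⟨F × Fin k, inferInstance, fun h s => if hh : h ∈ F then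
      WithLp.toLp 2 (fun q => C s (⟨h, hh⟩, q)) else 0, fun h hh h' hh' x => ?_⟩
    have hBC : ∀ a b, Bm a b = ∑ s, conj (C s a) * C s b := by
      intro a b
      rw [hC, Matrix.mul_apply]
      rfl
    have e1 : g (star (U h') * ψ x * U h) =
        ∑ p, ∑ q, ent x p q * Bm (⟨h', hh'⟩, p) (⟨h, hh⟩, q) := by
      conv_lhs => rw [Eu_sum x]
      rw [map_sum, Finset.mul_sum, Finset.sum_mul, map_sum]
      refine Finset.sum_congr rfl fun p _ => ?_
      rw [map_sum, Finset.mul_sum, Finset.sum_mul, map_sum]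
      refine Finset.sum_congr rfl fun q _ => ?_
      rw [map_smul, mul_smul_comm, smul_mul_assoc, map_smul, smul_eq_mul]
      rfl
    rw [e1, co]
    simp only [dif_pos hh, dif_pos hh']
    have e2 : ∀ s : F × Fin k, inner ℂ (WithLp.toLp 2 (fun q => C s (⟨h', hh'⟩, q)) :
        EuclideanSpace ℂ (Fin k)) (x (WithLp.toLp 2 (fun q => C s (⟨h, hh⟩, q)))) =
        ∑ p, ∑ q, ent x p q * (conj (C s (⟨h', hh'⟩, p)) * C s (⟨h, hh⟩, q)) := by
      intro s
      rw [PiLp.inner_apply]
      refine Finset.sum_congr rfl fun p _ => ?_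
      rw [apply_ent, RCLike.inner_apply, Finset.sum_mul]
      refine Finset.sum_congr rfl fun q _ => ?_
      show ent x p q * C s (⟨h, hh⟩, q) * conj (C s (⟨h', hh'⟩, p)) = _
      ring
    simp only [e2, hBC]
    have e3 : ∀ (f : F × Fin k → Fin k → Fin k → ℂ), ∑ s, ∑ p, ∑ q, f s p q =
        ∑ p, ∑ q, ∑ s, f s p q := by
      intro f
      rw [Finset.sum_comm]
      exact Finset.sum_congr rfl fun p _ => Finset.sum_comm
    rw [e3]
    refine Finset.sum_congr rfl fun p _ => Finset.sum_congr rfl fun q _ => ?_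
    rw [Finset.mul_sum]

end Pool.Agent.Helper29.TW
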