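import Pool.Agent.Helper29.TW.Fol
import Pool.Agent.Helper29.TW.Gr

/-! The estimate for one element. -/

set_option autoImplicit false
set_option linter.style.haveILetI false

open ComplexConjugate Finsupp

namespace Pool.Agent.Helper29.TW

open Pool.Agent.Helper29.VS (Mk)

variable {N : Type}

theorem sum_f_eq {f : N →₀ ℝ} (h1 : ms f = 1) : ∑ h ∈ f.support, f h = 1 := by
  rw [ms_eq] at h1
  exact h1

theorem form_le (F : Finset N) {f : N →₀ ℝ} (h0 : ∀ h, 0 ≤ f h)
    (A : N → N → ℝ) (hA : ∀ h' h, 0 ≤ A h' h) (S : N → Finset N) (S' : N → Finset N)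
    (hS : ∀ h h', h ∈ F → h' ∈ S h → h' ∈ F ∧ h ∈ S' h') {t : ℝ}
    (hrow : ∀ h ∈ F, ∑ h' ∈ S h, A h' h ≤ t) (hcol : ∀ h' ∈ F, ∑ h ∈ S' h', A h' h ≤ t) :
    ∑ h ∈ F, ∑ h' ∈ S h, √(f h) * √(f h') * A h' h ≤ t * ∑ h ∈ F, f h := by
  classical
  have e1 : ∑ h ∈ F, ∑ h' ∈ S h, √(f h) * √(f h') * A h' h ≤
      ∑ h ∈ F, ∑ h' ∈ S h, (f h / 2 * A h' h + f h' / 2 * A h' h) := by
    refine Finset.sum_le_sum fun h _ => Finset.sum_le_sum fun h' _ => ?_
    have h2 : √(f h) * √(f h') ≤ f h / 2 + f h' / 2 := by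
      have := two_mul_le_add_sq (√(f h)) (√(f h'))
      rw [Real.sq_sqrt (h0 h), Real.sq_sqrt (h0 h')] at this
      linarith
    calc √(f h) * √(f h') * A h' h ≤ (f h / 2 + f h' / 2) * A h' h :=
          mul_le_mul_of_nonneg_right h2 (hA _ _)
      _ = _ := by ring
  refine e1.trans ?_
  simp only [Finset.sum_add_distrib]
  have e2 : ∑ h ∈ F, ∑ h' ∈ S h, f h / 2 * A h' h ≤ t / 2 * ∑ h ∈ F, f h := by
    rw [Finset.mul_sum]
    refine Finset.sum_le_sum fun h hh => ?_
    rw [← Finset.mul_sum]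
    have := mul_le_mul_of_nonneg_left (hrow h hh) (by linarith [h0 h] : 0 ≤ f h / 2)
    linarith
  have e3 : ∑ h ∈ F, ∑ h' ∈ S h, f h' / 2 * A h' h ≤ t / 2 * ∑ h ∈ F, f h := by
    calc ∑ h ∈ F, ∑ h' ∈ S h, f h' / 2 * A h' h ≤
          ∑ h' ∈ F, ∑ h ∈ S' h', f h' / 2 * A h' h := by
          have e4 : ∀ h ∈ F, ∑ h' ∈ S h, f h' / 2 * A h' h ≤
              ∑ h' ∈ F, if h ∈ S' h' then f h' / 2 * A h' h else 0 := by
            intro h hh
            have hsub : S h ⊆ F := fun h' hh' => (hS h h' hh hh').1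
            calc ∑ h' ∈ S h, f h' / 2 * A h' h =
                  ∑ h' ∈ S h, if h ∈ S' h' then f h' / 2 * A h' h else 0 :=
                  Finset.sum_congr rfl fun h' hh' => by rw [if_pos (hS h h' hh hh').2]
              _ ≤ _ := Finset.sum_le_sum_of_subset_of_nonneg hsub fun h' _ _ => by
                  split_ifs
                  · exact mul_nonneg (by linarith [h0 h']) (hA _ _)
                  · exact le_rfl
          refine (Finset.sum_le_sum e4).trans ?_
          rw [Finset.sum_comm]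
          refine Finset.sum_le_sum fun h' _ => ?_
          rw [← Finset.sum_filter]
          refine Finset.sum_le_sum_of_subset_of_nonneg ?_ fun h _ _ =>
            mul_nonneg (by linarith [h0 h']) (hA _ _)
          intro h hh
          exact (Finset.mem_filter.1 hh).2
      _ ≤ t / 2 * ∑ h ∈ F, f h := by
          rw [Finset.mul_sum]
          refine Finset.sum_le_sum fun h' hh' => ?_
          rw [← Finset.mul_sum]
          have := mul_le_mul_of_nonneg_left (hcol h' hh') (by linarith [h0 h'] : 0 ≤ f h' / 2)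
          linarith
  linarith

theorem est [Group N] (f : N →₀ ℝ) (h0 : ∀ h, 0 ≤ f h) (h1 : ms f = 1) (e : N)
    (hf : nu (mapDomain (fun h => e⁻¹ * h) f - f) ≤ 1 / 8) (χ : N → ℂ)
    (hχ : ∀ a b, χ (a * b) = χ a * χ b) (hχ1 : ∀ a, ‖χ a‖ = 1) (A : N → N → ℝ)
    (hA : ∀ h' h, 0 ≤ A h' h) (hrow : ∀ h, ∀ F : Finset N, ∑ h' ∈ F, A h' h ≤ 1)
    (hcol : ∀ h', ∀ F : Finset N, ∑ h ∈ F, A h' h ≤ 1) (hdiag : ∀ h, 15 / 16 ≤ A (e * h) h) :
    ‖∑ h ∈ f.support, ∑ h' ∈ f.support, (√(f h) * χ h) * conj (√(f h') * χ h') * (A h' h : ℂ) -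
      conj (χ e)‖ ≤ 1 / 4 := by
  classical
  set F := f.support with hF
  have hsum : ∑ h ∈ F, f h = 1 := sum_f_eq h1
  set t : N → N → ℂ := fun h h' => (√(f h) * χ h) * conj (√(f h') * χ h') * (A h' h : ℂ) with ht
  have hsplit : ∀ h, ∑ h' ∈ F, t h h' = t h (e * h) + ∑ h' ∈ F.erase (e * h), t h h' := by
    intro h
    by_cases hm : e * h ∈ F
    · rw [Finset.add_sum_erase F _ hm]
    · rw [Finset.erase_eq_of_notMem hm]
      have : f (e * h) = 0 := Finsupp.notMem_support_iff.1 hm
      rw [ht]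
      show _ = (√(f h) * χ h) * conj (√(f (e * h)) * χ (e * h)) * (A (e * h) h : ℂ) + _
      rw [this, Real.sqrt_zero, Complex.ofReal_zero, zero_mul, map_zero, mul_zero, zero_mul, zero_add]
  have hdiag' : ∀ h, t h (e * h) = conj (χ e) * ((√(f h) * √(f (e * h)) * A (e * h) h : ℝ) : ℂ) := by
    intro h
    rw [ht]
    show (√(f h) * χ h) * conj (√(f (e * h)) * χ (e * h)) * (A (e * h) h : ℂ) = _
    rw [hχ, RingHom.map_mul, RingHom.map_mul, Complex.conj_ofReal]
    have h3 : χ h * conj (χ h) = 1 := by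
      rw [Complex.mul_conj', hχ1]
      simp
    push_cast
    linear_combination (√(f h) * √(f (e * h)) * conj (χ e) * (A (e * h) h : ℂ)) * h3
  -- the off-diagonal part
  have hoff : ‖∑ h ∈ F, ∑ h' ∈ F.erase (e * h), t h h'‖ ≤ 1 / 16 := by
    have e1 : ‖∑ h ∈ F, ∑ h' ∈ F.erase (e * h), t h h'‖ ≤
        ∑ h ∈ F, ∑ h' ∈ F.erase (e * h), √(f h) * √(f h') * A h' h := by
      refine (norm_sum_le _ _).trans (Finset.sum_le_sum fun h _ => ?_)
      refine (norm_sum_le _ _).trans (Finset.sum_le_sum fun h' _ => le_of_eq ?_)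
      rw [ht]
      show ‖(√(f h) * χ h) * conj (√(f h') * χ h') * (A h' h : ℂ)‖ = _
      rw [norm_mul, norm_mul, RCLike.norm_conj, norm_mul, norm_mul, hχ1, hχ1, Complex.norm_real,
        Complex.norm_real, Complex.norm_real, Real.norm_eq_abs, Real.norm_eq_abs, Real.norm_eq_abs,
        abs_of_nonneg (Real.sqrt_nonneg _), abs_of_nonneg (Real.sqrt_nonneg _),
        abs_of_nonneg (hA _ _), mul_one, mul_one]
    refine e1.trans ?_
    have e2 := form_le F h0 A hA (fun h => F.erase (e * h)) (fun h' => F.erase (e⁻¹ * h'))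
      (t := 1 / 16) (by
        intro h h' hh hh'
        rw [Finset.mem_erase] at hh'
        refine ⟨hh'.2, Finset.mem_erase.2 ⟨?_, hh⟩⟩
        intro heq
        apply hh'.1
        rw [heq, mul_inv_cancel_left]) (by
        intro h _
        have h2 := hrow h (insert (e * h) (F.erase (e * h)))
        rw [Finset.sum_insert (Finset.notMem_erase _ _)] at h2
        have h3 := hdiag h
        linarith) (by
        intro h' _
        have h2 := hcol h' (insert (e⁻¹ * h') (F.erase (e⁻¹ * h')))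
        rw [Finset.sum_insert (Finset.notMem_erase _ _)] at h2
        have h3 := hdiag (e⁻¹ * h')
        rw [mul_inv_cancel_left] at h3
        linarith)
    rw [hsum, mul_one] at e2
    exact e2
  -- the diagonal part
  set D : ℝ := ∑ h ∈ F, √(f h) * √(f (e * h)) * A (e * h) h with hD
  have hmap : ∀ h, mapDomain (fun h => e⁻¹ * h) f h = f (e * h) := by
    intro h
    have := Finsupp.mapDomain_apply (mul_right_injective e⁻¹) f (e * h)
    beta_reduce at this
    rw [inv_mul_cancel_left] at this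
    exact this
  have hA1 : ∀ h, A (e * h) h ≤ 1 := by
    intro h
    have := hrow h {e * h}
    rwa [Finset.sum_singleton] at this
  have hDle : D ≤ 1 := by
    calc D ≤ ∑ h ∈ F, (f h / 2 + f (e * h) / 2) := by
          refine Finset.sum_le_sum fun h _ => ?_
          have h2 := two_mul_le_add_sq (√(f h)) (√(f (e * h)))
          rw [Real.sq_sqrt (h0 h), Real.sq_sqrt (h0 (e * h))] at h2
          calc √(f h) * √(f (e * h)) * A (e * h) h ≤ √(f h) * √(f (e * h)) * 1 :=
                mul_le_mul_of_nonneg_left (hA1 h) (by positivity)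
            _ ≤ _ := by linarith
      _ = 1 / 2 + (∑ h ∈ F, f (e * h)) / 2 := by
          rw [Finset.sum_add_distrib, ← Finset.sum_div, ← Finset.sum_div, hsum]
      _ ≤ 1 := by
          have h3 : ∑ h ∈ F, f (e * h) ≤ 1 := by
            calc ∑ h ∈ F, f (e * h) = ∑ h ∈ F, |mapDomain (fun h => e⁻¹ * h) f h| :=
                  Finset.sum_congr rfl fun h _ => by rw [hmap, abs_of_nonneg (h0 _)]
              _ ≤ ∑ h ∈ F ∪ (mapDomain (fun h => e⁻¹ * h) f).support,
                    |mapDomain (fun h => e⁻¹ * h) f h| :=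
                  Finset.sum_le_sum_of_subset_of_nonneg Finset.subset_union_left
                    fun _ _ _ => abs_nonneg _
              _ = nu (mapDomain (fun h => e⁻¹ * h) f) := (nu_eq Finset.subset_union_right).symm
              _ ≤ nu f := nu_map_le _ f
              _ = 1 := by rw [nu_of_nonneg h0, h1]
          linarith
  have hDge : 105 / 128 ≤ D := by
    have h3 : 7 / 8 ≤ ∑ h ∈ F, √(f h) * √(f (e * h)) := by
      have h4 : ∀ h, f h - |mapDomain (fun h => e⁻¹ * h) f h - f h| ≤ √(f h) * √(f (e * h)) := by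
        intro h
        rw [hmap]
        rcases le_total (f h) (f (e * h)) with hle | hle
        · have h5 : √(f h) * √(f h) ≤ √(f h) * √(f (e * h)) :=
            mul_le_mul_of_nonneg_left (Real.sqrt_le_sqrt hle) (Real.sqrt_nonneg _)
          rw [Real.mul_self_sqrt (h0 h)] at h5
          linarith [abs_nonneg (f (e * h) - f h)]
        · have h5 : √(f (e * h)) * √(f (e * h)) ≤ √(f h) * √(f (e * h)) :=
            mul_le_mul_of_nonneg_right (Real.sqrt_le_sqrt hle) (Real.sqrt_nonneg _)
          rw [Real.mul_self_sqrt (h0 _)] at h5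
          linarith [neg_abs_le (f (e * h) - f h)]
      have h5 : ∑ h ∈ F, |mapDomain (fun h => e⁻¹ * h) f h - f h| ≤ 1 / 8 := by
        calc ∑ h ∈ F, |mapDomain (fun h => e⁻¹ * h) f h - f h| =
              ∑ h ∈ F, |(mapDomain (fun h => e⁻¹ * h) f - f) h| :=
              Finset.sum_congr rfl fun h _ => by rw [Finsupp.sub_apply]
          _ ≤ ∑ h ∈ F ∪ (mapDomain (fun h => e⁻¹ * h) f - f).support,
                |(mapDomain (fun h => e⁻¹ * h) f - f) h| :=
              Finset.sum_le_sum_of_subset_of_nonneg Finset.subset_union_left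
                fun _ _ _ => abs_nonneg _
          _ = nu (mapDomain (fun h => e⁻¹ * h) f - f) := (nu_eq Finset.subset_union_right).symm
          _ ≤ 1 / 8 := hf
      have h6 := Finset.sum_le_sum fun h (_ : h ∈ F) => h4 h
      rw [Finset.sum_sub_distrib, hsum] at h6
      linarith
    have h4 : 15 / 16 * ∑ h ∈ F, √(f h) * √(f (e * h)) ≤ D := by
      rw [Finset.mul_sum]
      refine Finset.sum_le_sum fun h _ => ?_
      have := mul_le_mul_of_nonneg_left (hdiag h)
        (by positivity : 0 ≤ √(f h) * √(f (e * h)))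
      linarith
    linarith
  have e1 : ∑ h ∈ F, ∑ h' ∈ F, t h h' - conj (χ e) =
      conj (χ e) * ((D - 1 : ℝ) : ℂ) + ∑ h ∈ F, ∑ h' ∈ F.erase (e * h), t h h' := by
    simp only [hsplit, Finset.sum_add_distrib, hdiag']
    rw [← Finset.mul_sum, ← Complex.ofReal_sum, ← hD]
    push_cast
    ring
  rw [e1]
  refine (norm_add_le _ _).trans ?_
  rw [norm_mul, RCLike.norm_conj, hχ1, one_mul, Complex.norm_real, Real.norm_eq_abs]
  have h7 : |D - 1| ≤ 23 / 128 := by
    rw [abs_le]
    constructor <;> linarith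
  linarith

end Pool.Agent.Helper29.TW
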