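import Pool.Agent.Helper29.VS.Tr

/-! The operators `x ⊗ x̄` on `ℂ^k ⊗ ℂ^k`. -/

set_option autoImplicit false
set_option linter.style.haveILetI false

open ComplexConjugate

namespace Pool.Agent.Helper29.TW

open Pool.Agent.Helper29.VS (Mk bv sum_bv)

variable {k : ℕ}

/-- the matrix entries -/
noncomputable def ent (x : Mk k) (p q : Fin k) : ℂ := (x (bv k q)) p

theorem apply_ent (x : Mk k) (v : EuclideanSpace ℂ (Fin k)) (p : Fin k) :
    (x v) p = ∑ q, ent x p q * v q := by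
  conv_lhs => rw [sum_bv v, map_sum]
  rw [WithLp.ofLp_sum, Finset.sum_apply]
  refine Finset.sum_congr rfl fun q _ => ?_
  rw [map_smul, PiLp.smul_apply, smul_eq_mul, mul_comm]
  rfl

/-- the two components of an index -/
def i1 (i : Fin (k * k)) : Fin k := (finProdFinEquiv.symm i).1
/-- the two components of an index -/
def i2 (i : Fin (k * k)) : Fin k := (finProdFinEquiv.symm i).2

theorem sum_pair {M : Type} [AddCommMonoid M] (f : Fin k → Fin k → M) :
    ∑ i : Fin (k * k), f (i1 i) (i2 i) = ∑ p, ∑ q, f p q := by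
  rw [← Finset.sum_product', ← Fintype.sum_equiv (finProdFinEquiv (m := k) (n := k))
    (fun x => f x.1 x.2) (fun i => f (i1 i) (i2 i))]
  · rfl
  · intro x
    rw [i1, i2, Equiv.symm_apply_apply]

/-- the vector `u ⊗ v̄` -/
noncomputable def tens (u v : EuclideanSpace ℂ (Fin k)) : EuclideanSpace ℂ (Fin (k * k)) :=
  WithLp.toLp 2 fun i => u (i1 i) * conj (v (i2 i))

theorem inner_tens (u v u' v' : EuclideanSpace ℂ (Fin k)) :
    inner ℂ (tens u' v') (tens u v) = inner ℂ u' u * conj (inner ℂ v' v) := by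
  rw [PiLp.inner_apply, PiLp.inner_apply, PiLp.inner_apply, map_sum, Finset.sum_mul_sum,
    ← sum_pair]
  refine Finset.sum_congr rfl fun i _ => ?_
  show inner ℂ (u' (i1 i) * conj (v' (i2 i))) (u (i1 i) * conj (v (i2 i))) =
    inner ℂ (u' (i1 i)) (u (i1 i)) * conj (inner ℂ (v' (i2 i)) (v (i2 i)))
  simp only [RCLike.inner_apply, map_mul, Complex.conj_conj]
  ring

/-- the operator `x ⊗ x̄` -/
noncomputable def KO (x : Mk k) : Mk (k * k) :=
  LinearMap.toContinuousLinearMap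
    { toFun := fun v => WithLp.toLp 2 fun i => ∑ j, ent x (i1 i) (i1 j) *
        conj (ent x (i2 i) (i2 j)) * v j
      map_add' := by
        intro v w
        ext i
        show ∑ j, _ * (v + w) j = (∑ j, _) + ∑ j, _
        rw [← Finset.sum_add_distrib]
        refine Finset.sum_congr rfl fun j _ => ?_
        rw [PiLp.add_apply]
        ring
      map_smul' := by
        intro c v
        ext i
        show ∑ j, _ * (c • v) j = c * ∑ j, _
        rw [Finset.mul_sum]
        refine Finset.sum_congr rfl fun j _ => ?_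
        rw [PiLp.smul_apply, smul_eq_mul]
        ring }

theorem KO_apply (x : Mk k) (v : EuclideanSpace ℂ (Fin (k * k))) (i : Fin (k * k)) :
    (KO x v) i = ∑ j, ent x (i1 i) (i1 j) * conj (ent x (i2 i) (i2 j)) * v j := rfl

theorem KO_tens (x : Mk k) (u v : EuclideanSpace ℂ (Fin k)) :
    KO x (tens u v) = tens (x u) (x v) := by
  ext i
  rw [KO_apply]
  show _ = (x u) (i1 i) * conj ((x v) (i2 i))
  rw [apply_ent, apply_ent, map_sum, Finset.sum_mul_sum, ← sum_pair]
  refine Finset.sum_congr rfl fun j _ => ?_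
  show _ * (u (i1 j) * conj (v (i2 j))) = _
  rw [map_mul]
  ring

theorem sum_sq_le {x : Mk k} (hx : ‖x‖ ≤ 1) (v : Fin k → ℂ) :
    ∑ p, ‖∑ q, ent x p q * v q‖ ^ 2 ≤ ∑ q, ‖v q‖ ^ 2 := by
  have h1 := x.le_opNorm (WithLp.toLp 2 v : EuclideanSpace ℂ (Fin k))
  have h2 : ‖x (WithLp.toLp 2 v : EuclideanSpace ℂ (Fin k))‖ ^ 2 ≤
      ‖(WithLp.toLp 2 v : EuclideanSpace ℂ (Fin k))‖ ^ 2 := by
    refine pow_le_pow_left₀ (norm_nonneg _) (h1.trans ?_) 2
    calc _ ≤ 1 * ‖(WithLp.toLp 2 v : EuclideanSpace ℂ (Fin k))‖ :=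
          mul_le_mul_of_nonneg_right hx (norm_nonneg _)
      _ = _ := one_mul _
  rw [EuclideanSpace.norm_sq_eq, EuclideanSpace.norm_sq_eq] at h2
  refine le_trans (le_of_eq ?_) h2
  refine Finset.sum_congr rfl fun p _ => ?_
  rw [apply_ent]

theorem sum_sq_le' {x : Mk k} (hx : ‖x‖ ≤ 1) (v : Fin k → ℂ) :
    ∑ p, ‖∑ q, conj (ent x p q) * v q‖ ^ 2 ≤ ∑ q, ‖v q‖ ^ 2 := by
  have h1 := sum_sq_le hx fun q => conj (v q)
  simp only [RCLike.norm_conj] at h1
  refine le_trans (le_of_eq ?_) h1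
  refine Finset.sum_congr rfl fun p _ => ?_
  rw [← RCLike.norm_conj, map_sum]
  simp only [map_mul, Complex.conj_conj]

theorem KO_norm {x : Mk k} (hx : ‖x‖ ≤ 1) : ‖KO x‖ ≤ 1 := by
  refine ContinuousLinearMap.opNorm_le_bound _ zero_le_one fun v => ?_
  rw [one_mul]
  refine le_of_sq_le_sq ?_ (norm_nonneg _)
  rw [EuclideanSpace.norm_sq_eq, EuclideanSpace.norm_sq_eq]
  set z : Fin k → Fin k → ℂ := fun p q => v (finProdFinEquiv (p, q)) with hz
  have hv : ∀ i, v i = z (i1 i) (i2 i) := by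
    intro i
    rw [hz]
    show v i = v (finProdFinEquiv (finProdFinEquiv.symm i))
    rw [Equiv.apply_symm_apply]
  have e1 : ∑ i, ‖(KO x v) i‖ ^ 2 =
      ∑ p, ∑ p', ‖∑ q, ent x p q * ∑ q', conj (ent x p' q') * z q q'‖ ^ 2 := by
    rw [← sum_pair fun p p' => ‖∑ q, ent x p q * ∑ q', conj (ent x p' q') * z q q'‖ ^ 2]
    refine Finset.sum_congr rfl fun i _ => ?_
    congr 2
    rw [KO_apply]
    simp only [hv, Finset.mul_sum]
    rw [← sum_pair fun q q' => ent x (i1 i) q * (conj (ent x (i2 i) q') * z q q')]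
    exact Finset.sum_congr rfl fun j _ => by ring
  have e2 : ∑ i, ‖v i‖ ^ 2 = ∑ q, ∑ q', ‖z q q'‖ ^ 2 := by
    rw [← sum_pair fun q q' => ‖z q q'‖ ^ 2]
    exact Finset.sum_congr rfl fun i _ => by rw [hv]
  rw [e1, e2, Finset.sum_comm]
  calc ∑ p', ∑ p, ‖∑ q, ent x p q * ∑ q', conj (ent x p' q') * z q q'‖ ^ 2 ≤
        ∑ p', ∑ q, ‖∑ q', conj (ent x p' q') * z q q'‖ ^ 2 :=
        Finset.sum_le_sum fun p' _ => sum_sq_le hx _
    _ = ∑ q, ∑ p', ‖∑ q', conj (ent x p' q') * z q q'‖ ^ 2 := Finset.sum_comm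
    _ ≤ ∑ q, ∑ q', ‖z q q'‖ ^ 2 := Finset.sum_le_sum fun q _ => sum_sq_le' hx _

section Low

variable {N D : Type} [Fintype D]

/-- the coefficient of `x` between `h` and `h'` -/
noncomputable def co (r : N → D → EuclideanSpace ℂ (Fin k)) (h' h : N) (x : Mk k) : ℂ :=
  ∑ s, inner ℂ (r h' s) (x (r h s))

/-- the test vectors -/
noncomputable def YY (F : Finset N) (c : N → ℂ) (r : N → D → EuclideanSpace ℂ (Fin k)) (s s' : D) :
    EuclideanSpace ℂ (Fin (k * k)) := ∑ h ∈ F, c h • tens (r h s) (r h s')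

/-- the form -/
noncomputable def fo (F : Finset N) (c : N → ℂ) (r : N → D → EuclideanSpace ℂ (Fin k)) (x : Mk k) :
    ℂ := ∑ h ∈ F, ∑ h' ∈ F, c h * conj (c h') * (co r h' h x * conj (co r h' h x))

theorem key_id (F : Finset N) (c : N → ℂ) (r : N → D → EuclideanSpace ℂ (Fin k)) (x : Mk k) :
    ∑ s, ∑ s', inner ℂ (YY F c r s s') (KO x (YY F c r s s')) = fo F c r x := by
  have h1 : ∀ s s', inner ℂ (YY F c r s s') (KO x (YY F c r s s')) =
      ∑ h ∈ F, ∑ h' ∈ F, c h * conj (c h') *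
        (inner ℂ (r h' s) (x (r h s)) * conj (inner ℂ (r h' s') (x (r h s')))) := by
    intro s s'
    rw [YY, map_sum, inner_sum]
    refine Finset.sum_congr rfl fun h _ => ?_
    rw [sum_inner]
    refine Finset.sum_congr rfl fun h' _ => ?_
    rw [map_smul, KO_tens, inner_smul_left, inner_smul_right, inner_tens]
    ring
  simp only [h1]
  rw [fo]
  have h2 : ∀ (f : D → D → N → N → ℂ), ∑ s, ∑ s', ∑ h ∈ F, ∑ h' ∈ F, f s s' h h' =
      ∑ h ∈ F, ∑ h' ∈ F, ∑ s, ∑ s', f s s' h h' := by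
    intro f
    have e1 : ∀ s, ∑ s', ∑ h ∈ F, ∑ h' ∈ F, f s s' h h' = ∑ h ∈ F, ∑ h' ∈ F, ∑ s', f s s' h h' := by
      intro s
      rw [Finset.sum_comm]
      exact Finset.sum_congr rfl fun h _ => Finset.sum_comm
    simp only [e1]
    rw [Finset.sum_comm]
    exact Finset.sum_congr rfl fun h _ => Finset.sum_comm
  rw [h2]
  refine Finset.sum_congr rfl fun h _ => Finset.sum_congr rfl fun h' _ => ?_
  rw [co, map_sum, Finset.sum_mul_sum, Finset.mul_sum]
  refine Finset.sum_congr rfl fun s _ => ?_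
  rw [Finset.mul_sum]

theorem KO_one (v : EuclideanSpace ℂ (Fin (k * k))) : KO (1 : Mk k) v = v := by
  have hent : ∀ p q, ent (1 : Mk k) p q = if p = q then 1 else 0 := by
    intro p q
    show (bv k q) p = _
    rw [bv, EuclideanSpace.single_apply]
  ext i
  rw [KO_apply, Finset.sum_eq_single i]
  · rw [hent, hent, if_pos rfl, if_pos rfl, map_one, one_mul, one_mul]
  · intro j _ hj
    rw [hent, hent]
    by_cases h1 : i1 i = i1 j
    · have h2 : i2 i ≠ i2 j := by
        intro h2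
        apply hj
        apply finProdFinEquiv.symm.injective
        exact (Prod.ext h1 h2).symm
      rw [if_neg h2, map_zero, mul_zero, zero_mul]
    · rw [if_neg h1, zero_mul, zero_mul]
  · intro h
    exact absurd (Finset.mem_univ i) h

/-- **The lower bound for the norm.** -/
theorem low {m : ℕ} (F : Finset N) (c : N → ℂ) (r : N → D → EuclideanSpace ℂ (Fin k))
    (x : Fin m → Mk k) (w : Fin m → ℂ) :
    ‖∑ j, w j * fo F c r (x j)‖ ≤ ‖∑ j, w j • KO (x j)‖ * ‖fo F c r (1 : Mk k)‖ := by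
  set Z : Mk (k * k) := ∑ j, w j • KO (x j) with hZ
  have h1 : ∑ j, w j * fo F c r (x j) =
      ∑ s, ∑ s', inner ℂ (YY F c r s s') (Z (YY F c r s s')) := by
    have e1 : ∀ s s', inner ℂ (YY F c r s s') (Z (YY F c r s s')) =
        ∑ j, w j * inner ℂ (YY F c r s s') (KO (x j) (YY F c r s s')) := by
      intro s s'
      rw [hZ, _root_.sum_apply, inner_sum]
      refine Finset.sum_congr rfl fun j _ => ?_
      show inner ℂ _ (w j • (KO (x j) _)) = _
      rw [inner_smul_right]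
    simp only [e1]
    have e2 : ∀ s, ∑ s', ∑ j, w j * inner ℂ (YY F c r s s') (KO (x j) (YY F c r s s')) =
        ∑ j, ∑ s', w j * inner ℂ (YY F c r s s') (KO (x j) (YY F c r s s')) :=
      fun s => Finset.sum_comm
    simp only [e2]
    rw [Finset.sum_comm]
    refine Finset.sum_congr rfl fun j _ => ?_
    rw [← key_id, Finset.mul_sum]
    exact Finset.sum_congr rfl fun s _ => Finset.mul_sum _ _ _
  have h2 : ∑ s, ∑ s', ‖YY F c r s s'‖ ^ 2 ≤ ‖fo F c r (1 : Mk k)‖ := by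
    have e1 : fo F c r (1 : Mk k) = ((∑ s, ∑ s', ‖YY F c r s s'‖ ^ 2 : ℝ) : ℂ) := by
      rw [← key_id]
      push_cast
      refine Finset.sum_congr rfl fun s _ => Finset.sum_congr rfl fun s' _ => ?_
      rw [KO_one, inner_self_eq_norm_sq_to_K]
      rfl
    rw [e1, Complex.norm_real, Real.norm_eq_abs]
    exact le_abs_self _
  rw [h1]
  calc ‖∑ s, ∑ s', inner ℂ (YY F c r s s') (Z (YY F c r s s'))‖ ≤
        ∑ s, ∑ s', ‖Z‖ * ‖YY F c r s s'‖ ^ 2 := by
        refine (norm_sum_le _ _).trans (Finset.sum_le_sum fun s _ => ?_)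
        refine (norm_sum_le _ _).trans (Finset.sum_le_sum fun s' _ => ?_)
        refine (norm_inner_le_norm _ _).trans ?_
        have := Z.le_opNorm (YY F c r s s')
        nlinarith [norm_nonneg (YY F c r s s')]
    _ = ‖Z‖ * ∑ s, ∑ s', ‖YY F c r s s'‖ ^ 2 := by
        rw [Finset.mul_sum]
        exact Finset.sum_congr rfl fun s _ => by rw [Finset.mul_sum]
    _ ≤ _ := mul_le_mul_of_nonneg_left h2 (norm_nonneg _)

end Low

end Pool.Agent.Helper29.TW
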